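import Pool.Agent.Q75.BM.Stm

/-! Project BM (helper75), job WM (helper252): the entries of the word matrices. -/

set_option autoImplicit false

namespace Pool.Agent.Q252.BM

open Pool.Agent.Q75.BM Polynomial

/-- the polynomial matrices of the letters -/
noncomputable def pm : Ltr → Matrix (Fin 2) (Fin 2) (Polynomial ℂ)
  | .a => !![X, -1; 1, 0]
  | .ai => !![0, 1; -1, X]
  | .d => !![1, 1; 0, 1]
  | .di => !![1, -1; 0, 1]

theorem mat_eq (s : Ltr) (l : ℂ) (i j : Fin 2) : (mat s l).1 i j = (pm s i j).eval l := by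
  cases s
  · change (mA l).1 i j = _
    fin_cases i <;> fin_cases j <;> simp [mA, pm]
  · change ((mA l)⁻¹).1 i j = _
    rw [Matrix.SpecialLinearGroup.coe_inv]
    fin_cases i <;> fin_cases j <;> simp [mA, pm, Matrix.adjugate_fin_two]
  · change mD.1 i j = _
    fin_cases i <;> fin_cases j <;> simp [mD, pm]
  · change (mD⁻¹).1 i j = _
    rw [Matrix.SpecialLinearGroup.coe_inv]
    fin_cases i <;> fin_cases j <;> simp [mD, pm, Matrix.adjugate_fin_two]

theorem rmat_eq (s : Ltr) (l : ℝ) (i j : Fin 2) : (mat s (l : ℂ)).1 i j = ((rmat s l i j : ℝ) : ℂ) := by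
  rw [mat_eq]
  cases s <;> fin_cases i <;> fin_cases j <;> simp [pm, rmat]

theorem pm_deg (s : Ltr) (i j : Fin 2) : (pm s i j).natDegree ≤ 1 := by
  cases s <;> fin_cases i <;> fin_cases j <;> simp [pm]

theorem wmat_cons (s : Ltr) (w : List Ltr) (l : ℂ) : wmat (s :: w) l = mat s l * wmat w l := by
  unfold wmat
  rw [List.map_cons, List.prod_cons]

theorem rwmat_cons (s : Ltr) (w : List Ltr) (l : ℝ) : rwmat (s :: w) l = rmat s l * rwmat w l := by
  unfold rwmat
  rw [List.map_cons, List.prod_cons]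

theorem wm1 (w : List Ltr) : ∀ i j, ∃ P : Polynomial ℂ, P.natDegree ≤ w.length ∧
    ∀ l : ℂ, (wmat w l).1 i j = P.eval l := by
  induction w with
  | nil =>
    intro i j
    refine ⟨C ((1 : Matrix (Fin 2) (Fin 2) ℂ) i j), by simp, fun l => ?_⟩
    rw [eval_C]
    rfl
  | cons s w ih =>
    intro i j
    choose P hdeg hP using ih
    refine ⟨∑ k, pm s i k * P k j, ?_, fun l => ?_⟩
    · refine natDegree_sum_le_of_forall_le _ _ fun k _ => ?_
      refine natDegree_mul_le.trans ?_
      rw [List.length_cons]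
      have h1 := pm_deg s i k
      have h2 := hdeg k j
      omega
    · rw [wmat_cons, eval_finsetSum]
      change ((mat s l).1 * (wmat w l).1) i j = _
      rw [Matrix.mul_apply]
      refine Finset.sum_congr rfl fun k _ => ?_
      rw [eval_mul, mat_eq, hP]

theorem wm2 (w : List Ltr) (l : ℝ) : ∀ i j, (wmat w (l : ℂ)).1 i j = ((rwmat w l i j : ℝ) : ℂ) := by
  induction w with
  | nil =>
    intro i j
    change (1 : Matrix (Fin 2) (Fin 2) ℂ) i j = (((1 : Matrix (Fin 2) (Fin 2) ℝ) i j : ℝ) : ℂ)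
    rw [Matrix.one_apply, Matrix.one_apply]
    split_ifs <;> simp
  | cons s w ih =>
    intro i j
    rw [wmat_cons, rwmat_cons]
    change ((mat s (l : ℂ)).1 * (wmat w (l : ℂ)).1) i j = _
    rw [Matrix.mul_apply, Matrix.mul_apply]
    push_cast
    refine Finset.sum_congr rfl fun k _ => ?_
    rw [rmat_eq, ih]

theorem t_WM : Pool.Agent.Q75.BM.S_WM := by
  intro w
  refine ⟨wm1 w, fun l i j => wm2 w l i j, fun α β => ?_⟩
  choose P hdeg hP using wm1 w
  refine ⟨∑ i, ∑ j, C (ev α i : ℂ) * P i j * C (ev β j : ℂ), ?_, fun l => ?_⟩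
  · refine natDegree_sum_le_of_forall_le _ _ fun i _ => natDegree_sum_le_of_forall_le _ _ fun j _ => ?_
    refine natDegree_mul_le.trans ?_
    have h1 : (C (ev α i : ℂ) * P i j).natDegree ≤ (C (ev α i : ℂ)).natDegree + (P i j).natDegree := natDegree_mul_le
    rw [natDegree_C] at h1 ⊢
    have h2 := hdeg i j
    omega
  · unfold bf
    rw [eval_finsetSum]
    refine Finset.sum_congr rfl fun i _ => ?_
    rw [eval_finsetSum]
    refine Finset.sum_congr rfl fun j _ => ?_
    rw [eval_mul, eval_mul, eval_C, eval_C, hP]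

end Pool.Agent.Q252.BM
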